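import Pool.Agent.Y6.N.Stm

/-! Job NSK-UNI: the energy identity and uniqueness for regular solutions. -/

open Set Filter Topology

set_option autoImplicit false

namespace Pool.Agent.Y939.NSK

open Pool.Agent.Y6.K (Kz lv)
open Pool.Agent.Y6.N Pool.Agent.Y5 Pool.Agent.Y5.D

section Calc

/-- term by term differentiation within a convex set -/
lemma der_lim {F F' : ℕ → ℝ → ℝ} {f g : ℝ → ℝ} {s : Set ℝ} (hs : Convex ℝ s) {ε : ℕ → ℝ}
    (hε : Tendsto ε atTop (𝓝 0)) (h1 : ∀ P, ∀ t ∈ s, HasDerivWithinAt (F P) (F' P t) s t)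
    (h2 : ∀ P, ∀ t ∈ s, |F' P t - g t| ≤ ε P)
    (h3 : ∀ t ∈ s, Tendsto (fun P => F P t) atTop (𝓝 (f t))) {t : ℝ} (ht : t ∈ s) :
    HasDerivWithinAt f (g t) s t := by
  have key : ∀ P, ∀ r ∈ s, |(f r - F P r) - (f t - F P t)| ≤ ε P * |r - t| := by
    intro P r hr
    have h4 : ∀ Q, |(F Q r - F P r) - (F Q t - F P t)| ≤ (ε Q + ε P) * |r - t| := by
      intro Q
      have := hs.norm_image_sub_le_of_norm_hasDerivWithin_le (f := fun x => F Q x - F P x)
        (f' := fun x => F' Q x - F' P x) (C := ε Q + ε P)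
        (fun x hx => (h1 Q x hx).sub (h1 P x hx)) (fun x hx => by
          rw [Real.norm_eq_abs]
          have a1 := abs_le.1 (h2 Q x hx)
          have a2 := abs_le.1 (h2 P x hx)
          rw [abs_le]
          constructor <;> linarith [a1.1, a1.2, a2.1, a2.2]) ht hr
      simpa [Real.norm_eq_abs] using this
    have l1 : Tendsto (fun Q => |(F Q r - F P r) - (F Q t - F P t)|) atTop
        (𝓝 |(f r - F P r) - (f t - F P t)|) :=
      (((h3 r hr).sub_const _).sub ((h3 t ht).sub_const _)).abs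
    have l2 : Tendsto (fun Q => (ε Q + ε P) * |r - t|) atTop (𝓝 ((0 + ε P) * |r - t|)) :=
      (hε.add_const _).mul_const _
    have := le_of_tendsto_of_tendsto' l1 l2 h4
    rwa [zero_add] at this
  rw [hasDerivWithinAt_iff_isLittleO, Asymptotics.isLittleO_iff]
  intro e he
  obtain ⟨P, hP⟩ := (hε.eventually_lt_const (by positivity : (0 : ℝ) < e / 3)).exists
  have h5 := (h1 P t ht)
  rw [hasDerivWithinAt_iff_isLittleO, Asymptotics.isLittleO_iff] at h5
  have h6 := h5 (by positivity : (0 : ℝ) < e / 3)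
  filter_upwards [h6, self_mem_nhdsWithin] with r hr hrs
  have h7 := key P r hrs
  have h8 := h2 P t ht
  simp only [smul_eq_mul, Real.norm_eq_abs] at hr ⊢
  have h9 : 0 ≤ |r - t| := abs_nonneg _
  have e1 : f r - f t - (r - t) * g t = ((f r - F P r) - (f t - F P t))
      + (F P r - F P t - (r - t) * F' P t) + (r - t) * (F' P t - g t) := by ring
  rw [e1]
  have t1 := abs_add_le (((f r - F P r) - (f t - F P t)) + (F P r - F P t - (r - t) * F' P t))
    ((r - t) * (F' P t - g t))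
  have t2 := abs_add_le ((f r - F P r) - (f t - F P t)) (F P r - F P t - (r - t) * F' P t)
  rw [abs_mul (r - t)] at t1
  have t3 : |r - t| * |F' P t - g t| ≤ |r - t| * (e / 3) :=
    mul_le_mul_of_nonneg_left (h8.trans hP.le) h9
  have t4 : ε P * |r - t| ≤ e / 3 * |r - t| := mul_le_mul_of_nonneg_right hP.le h9
  linarith

end Calc

section Tail

variable {I : Type}

/-- partial sums of a dominated family -/
lemma part_le {f b : I → ℝ} (hf : Summable f) (hb : Summable b) (h : ∀ i, |f i| ≤ b i)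
    (F : Finset I) : |∑ i ∈ F, f i - ∑' i, f i| ≤ ∑' i, b i - ∑ i ∈ F, b i := by
  have h1 : ∑ i ∈ F, (b i - f i) ≤ ∑' i, (b i - f i) :=
    (hb.sub hf).sum_le_tsum F (fun i _ => by have := (abs_le.1 (h i)).2; linarith)
  have h2 : ∑ i ∈ F, (b i + f i) ≤ ∑' i, (b i + f i) :=
    (hb.add hf).sum_le_tsum F (fun i _ => by have := (abs_le.1 (h i)).1; linarith)
  rw [Finset.sum_sub_distrib, hb.tsum_sub hf] at h1
  rw [Finset.sum_add_distrib, hb.tsum_add hf] at h2
  rw [abs_le]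
  constructor <;> linarith

end Tail

section Fixed

variable {I : Type} {c : I → I → I → ℝ} {D : I → I → ℝ} {N : I → ℝ} {C M : ℝ} {p q : ℕ}

/-- bilinear form of the quadratic term -/
noncomputable def qd2 (c : I → I → I → ℝ) (y u : I → ℝ) (i : I) : ℝ :=
  ∑' p : I × I, c i p.1 p.2 * y p.1 * u p.2

/-- the standing assumptions -/
structure Hyp (c : I → I → I → ℝ) (D : I → I → ℝ) (N : I → ℝ) (C : ℝ) (p q : ℕ) : Prop where
  C0 : 0 ≤ C
  one : ∀ i, 1 ≤ N i
  size : ∀ i a b, |c i a b| ≤ C * N i ^ p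
  dsize : ∀ i a, |D i a| ≤ C * N i ^ p
  summ : Summable (fun i => (N i ^ q)⁻¹)
  anti : ∀ i a b, c i a b = -c b a i
  quad : ∀ i (z : I → ℝ), Summable (fun a => z a ^ 2) →
    |qd c z i| ≤ C * N i ^ p * ∑' a, z a ^ 2
  coer : ∀ (s : Finset I) (z : I → ℝ), 0 ≤ ∑ a ∈ s, ∑ b ∈ s, D a b * z a * z b

/-- decay -/
def Dec (N : I → ℝ) (p q : ℕ) (M : ℝ) (x : I → ℝ) : Prop := ∀ i, N i ^ (p + q) * |x i| ≤ M

variable (H : Hyp c D N C p q)

include H

lemma Npos (i : I) : 0 < N i := lt_of_lt_of_le one_pos (H.one i)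

lemma s_pos (i : I) : 0 < (N i ^ q)⁻¹ := inv_pos.2 (pow_pos (Npos H i) _)

lemma Nx {x : I → ℝ} (hx : Dec N p q M x) (i : I) : N i ^ p * |x i| ≤ M * (N i ^ q)⁻¹ := by
  have h := hx i
  have h2 : 0 < N i ^ q := pow_pos (Npos H i) _
  rw [← div_eq_mul_inv, le_div_iff₀ h2]
  calc N i ^ p * |x i| * N i ^ q = N i ^ (p + q) * |x i| := by rw [pow_add]; ring
    _ ≤ M := h

lemma xs {x : I → ℝ} (hx : Dec N p q M x) (i : I) : |x i| ≤ M * (N i ^ q)⁻¹ := by
  refine le_trans ?_ (Nx H hx i)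
  have : 1 ≤ N i ^ p := one_le_pow₀ (H.one i)
  nlinarith [abs_nonneg (x i)]

lemma x_summ {x : I → ℝ} (hx : Dec N p q M x) : Summable (fun i => |x i|) :=
  Summable.of_nonneg_of_le (fun i => abs_nonneg _) (xs H hx) (H.summ.mul_left M)

lemma M_nonneg {x : I → ℝ} (hx : Dec N p q M x) (i : I) : 0 ≤ M :=
  le_trans (mul_nonneg (pow_nonneg (Npos H i).le _) (abs_nonneg _)) (hx i)

lemma sq_summ {x : I → ℝ} (hx : Dec N p q M x) : Summable (fun i => x i ^ 2) := by
  have h1 := x_summ H hx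
  have h2 : Summable (fun i => M * |x i|) := h1.mul_left M
  refine Summable.of_nonneg_of_le (fun i => sq_nonneg _) (fun i => ?_) h2
  have h3 : |x i| ≤ M := by
    refine le_trans ?_ (hx i)
    have : 1 ≤ N i ^ (p + q) := one_le_pow₀ (H.one i)
    nlinarith [abs_nonneg (x i)]
  rw [← sq_abs, sq]
  exact mul_le_mul_of_nonneg_right h3 (abs_nonneg _)

lemma pair_summ {x y : I → ℝ} {M M' : ℝ} (hx : Dec N p q M x) (hy : Dec N p q M' y) :
    Summable (fun t : I × I => |x t.1| * |y t.2|) :=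
  (x_summ H hx).mul_of_nonneg (x_summ H hy) (fun _ => abs_nonneg _) (fun _ => abs_nonneg _)

lemma term_le (i : I) (y u : I → ℝ) (t : I × I) :
    |c i t.1 t.2 * y t.1 * u t.2| ≤ C * N i ^ p * (|y t.1| * |u t.2|) := by
  rw [abs_mul, abs_mul, mul_assoc]
  exact mul_le_mul_of_nonneg_right (H.size i t.1 t.2) (by positivity)

lemma qd2_summ {y u : I → ℝ} {M M' : ℝ} (hy : Dec N p q M y) (hu : Dec N p q M' u) (i : I) :
    Summable (fun t : I × I => c i t.1 t.2 * y t.1 * u t.2) := by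
  refine Summable.of_norm_bounded ((pair_summ H hy hu).mul_left (C * N i ^ p)) (fun t => ?_)
  rw [Real.norm_eq_abs]
  exact term_le H i y u t

lemma sum_abs_le {x : I → ℝ} (hx : Dec N p q M x) :
    ∑' i, |x i| ≤ M * ∑' i, (N i ^ q)⁻¹ := by
  rw [← tsum_mul_left]
  exact (x_summ H hx).tsum_le_tsum (xs H hx) (H.summ.mul_left M)

lemma qd2_le {y u : I → ℝ} {M M' : ℝ} (hy : Dec N p q M y) (hu : Dec N p q M' u) (i : I) :
    |qd2 c y u i| ≤ C * N i ^ p * ((∑' a, |y a|) * ∑' b, |u b|) := by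
  have h1 : (∑' a, |y a|) * ∑' b, |u b| = ∑' t : I × I, |y t.1| * |u t.2| :=
    (x_summ H hy).tsum_mul_tsum (x_summ H hu) (pair_summ H hy hu)
  rw [h1, ← tsum_mul_left, qd2, ← Real.norm_eq_abs]
  refine tsum_of_norm_bounded (((pair_summ H hy hu).mul_left _).hasSum) (fun t => ?_)
  rw [Real.norm_eq_abs]
  exact term_le H i y u t

/-- the triple sums -/
lemma trip_summ {x y u : I → ℝ} {M M' M'' : ℝ} (hx : Dec N p q M x) (hy : Dec N p q M' y)
    (hu : Dec N p q M'' u) :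
    Summable (fun t : I × (I × I) => x t.1 * (c t.1 t.2.1 t.2.2 * y t.2.1 * u t.2.2)) := by
  have h0 : Summable (fun i => N i ^ p * |x i|) :=
    Summable.of_nonneg_of_le (fun i => mul_nonneg (pow_nonneg (Npos H i).le _) (abs_nonneg _))
      (Nx H hx) (H.summ.mul_left M)
  have h1 : Summable (fun t : I × (I × I) => (N t.1 ^ p * |x t.1|) * (|y t.2.1| * |u t.2.2|)) :=
    h0.mul_of_nonneg (pair_summ H hy hu)
      (fun i => mul_nonneg (pow_nonneg (Npos H i).le _) (abs_nonneg _))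
      (fun t => mul_nonneg (abs_nonneg _) (abs_nonneg _))
  refine Summable.of_norm_bounded (h1.mul_left C) (fun t => ?_)
  rw [Real.norm_eq_abs, abs_mul]
  have := mul_le_mul_of_nonneg_left (term_le H t.1 y u t.2) (abs_nonneg (x t.1))
  calc _ ≤ _ := this
    _ = _ := by ring

lemma trip_eq {x y u : I → ℝ} {M M' M'' : ℝ} (hx : Dec N p q M x) (hy : Dec N p q M' y)
    (hu : Dec N p q M'' u) :
    ∑' i, x i * qd2 c y u i
      = ∑' t : I × (I × I), x t.1 * (c t.1 t.2.1 t.2.2 * y t.2.1 * u t.2.2) := by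
  rw [(trip_summ H hx hy hu).tsum_prod]
  congr 1
  ext i
  rw [qd2, ← tsum_mul_left]

omit H in
/-- exchange of the first and the last index -/
def exch (I : Type) : I × (I × I) ≃ I × (I × I) where
  toFun t := (t.2.2, (t.2.1, t.1))
  invFun t := (t.2.2, (t.2.1, t.1))
  left_inv _ := rfl
  right_inv _ := rfl

lemma exch_eq {x y u : I → ℝ} {M M' M'' : ℝ} (hx : Dec N p q M x) (hy : Dec N p q M' y)
    (hu : Dec N p q M'' u) :
    ∑' i, x i * qd2 c y u i = - ∑' i, u i * qd2 c y x i := by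
  rw [trip_eq H hx hy hu, trip_eq H hu hy hx, ← tsum_neg, ← (exch I).tsum_eq]
  congr 1
  ext t
  simp only [exch, Equiv.coe_fn_mk]
  rw [H.anti]
  ring

lemma anti_zero {x y : I → ℝ} {M M' : ℝ} (hx : Dec N p q M x) (hy : Dec N p q M' y) :
    ∑' i, x i * qd2 c y x i = 0 := by
  have := exch_eq H hx hy hx
  linarith

lemma xq_le {x y u : I → ℝ} {M M' M'' : ℝ} (hx : Dec N p q M x) (hy : Dec N p q M' y)
    (hu : Dec N p q M'' u) (i : I) :
    |x i * qd2 c y u i| ≤ C * M * ((∑' a, |y a|) * ∑' b, |u b|) * (N i ^ q)⁻¹ := by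
  rw [abs_mul]
  have h1 := mul_le_mul_of_nonneg_left (qd2_le H hy hu i) (abs_nonneg (x i))
  have h2 : 0 ≤ (∑' a, |y a|) * ∑' b, |u b| :=
    mul_nonneg (tsum_nonneg fun _ => abs_nonneg _) (tsum_nonneg fun _ => abs_nonneg _)
  have h3 := mul_le_mul_of_nonneg_right (Nx H hx i) (mul_nonneg H.C0 h2)
  calc _ ≤ _ := h1
    _ = N i ^ p * |x i| * (C * ((∑' a, |y a|) * ∑' b, |u b|)) := by ring
    _ ≤ _ := h3
    _ = _ := by ring

lemma xq_summ {x y u : I → ℝ} {M M' M'' : ℝ} (hx : Dec N p q M x) (hy : Dec N p q M' y)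
    (hu : Dec N p q M'' u) : Summable (fun i => x i * qd2 c y u i) := by
  refine Summable.of_norm_bounded
    (H.summ.mul_left (C * M * ((∑' a, |y a|) * ∑' b, |u b|))) (fun i => ?_)
  rw [Real.norm_eq_abs]
  exact xq_le H hx hy hu i

lemma dec_sub {z z' : I → ℝ} {M : ℝ} (hz : Dec N p q M z) (hz' : Dec N p q M z') :
    Dec N p q (M + M) (fun i => z i - z' i) := by
  intro i
  have h1 := hz i
  have h2 := hz' i
  have h3 : |z i - z' i| ≤ |z i| + |z' i| := abs_sub _ _
  have h4 : 0 ≤ N i ^ (p + q) := pow_nonneg (Npos H i).le _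
  nlinarith

/-- the full sum for the difference of two solutions -/
lemma diff_le {z z' : I → ℝ} {M : ℝ} (hz : Dec N p q M z) (hz' : Dec N p q M z') :
    |∑' i, (z i - z' i) * (qd c z i - qd c z' i)|
      ≤ C * M * (∑' i, (N i ^ q)⁻¹) * ∑' i, (z i - z' i) ^ 2 := by
  have hw : Dec N p q (M + M) (fun i => z i - z' i) := dec_sub H hz hz'
  have hq : ∀ i, qd c z i - qd c z' i
      = qd2 c (fun a => z a - z' a) z i + qd2 c z' (fun a => z a - z' a) i := by
    intro i
    have e1 : qd c z i = qd2 c z z i := rfl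
    have e2 : qd c z' i = qd2 c z' z' i := rfl
    rw [e1, e2, qd2, qd2, qd2, qd2, ← (qd2_summ H hz hz i).tsum_sub (qd2_summ H hz' hz' i),
      ← (qd2_summ H hw hz i).tsum_add (qd2_summ H hz' hw i)]
    congr 1
    ext t
    ring
  have h1 : ∑' i, (z i - z' i) * (qd c z i - qd c z' i)
      = - ∑' i, z i * qd2 c (fun a => z a - z' a) (fun a => z a - z' a) i := by
    have e : (fun i => (z i - z' i) * (qd c z i - qd c z' i)) = fun i =>
        (fun a => z a - z' a) i * qd2 c (fun a => z a - z' a) z i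
          + (fun a => z a - z' a) i * qd2 c z' (fun a => z a - z' a) i := by
      ext i
      rw [hq i]
      ring
    rw [e, (xq_summ H hw hw hz).tsum_add (xq_summ H hw hz' hw), anti_zero H hw hz', add_zero,
      exch_eq H hw hw hz]
  rw [h1, abs_neg]
  have hE : Summable (fun i => (z i - z' i) ^ 2) := sq_summ H hw
  have hE0 : 0 ≤ ∑' i, (z i - z' i) ^ 2 := tsum_nonneg fun _ => sq_nonneg _
  have h2 : ∀ i, ‖z i * qd2 c (fun a => z a - z' a) (fun a => z a - z' a) i‖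
      ≤ C * M * (∑' i, (z i - z' i) ^ 2) * (N i ^ q)⁻¹ := by
    intro i
    rw [Real.norm_eq_abs, abs_mul]
    have h3 : |z i| * |qd2 c (fun a => z a - z' a) (fun a => z a - z' a) i| ≤
        |z i| * (C * N i ^ p * ∑' i, (z i - z' i) ^ 2) :=
      mul_le_mul_of_nonneg_left (H.quad i (fun a => z a - z' a) hE) (abs_nonneg (z i))
    have h4 : 0 ≤ C * ∑' i, (z i - z' i) ^ 2 := mul_nonneg H.C0 hE0
    have h5 := mul_le_mul_of_nonneg_right (Nx H hz i) h4
    calc _ ≤ _ := h3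
      _ = N i ^ p * |z i| * (C * ∑' i, (z i - z' i) ^ 2) := by ring
      _ ≤ _ := h5
      _ = _ := by ring
  rw [← Real.norm_eq_abs]
  refine (tsum_of_norm_bounded ((H.summ.mul_left _).hasSum) h2).trans (le_of_eq ?_)
  rw [tsum_mul_left]
  ring

/-- bound of the terms -/
lemma dterm_le {z z' : I → ℝ} {M : ℝ} (hz : Dec N p q M z) (hz' : Dec N p q M z') (i : I) :
    |(z i - z' i) * (qd c z i - qd c z' i)|
      ≤ 4 * C * M ^ 3 * (∑' i, (N i ^ q)⁻¹) ^ 2 * (N i ^ q)⁻¹ := by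
  have hM : 0 ≤ M := M_nonneg H hz i
  have hS : 0 ≤ ∑' i, (N i ^ q)⁻¹ := tsum_nonneg fun i => (s_pos H i).le
  have key : ∀ {u v : I → ℝ}, Dec N p q M u → Dec N p q M v →
      |u i * qd2 c v v i| ≤ C * M ^ 3 * (∑' i, (N i ^ q)⁻¹) ^ 2 * (N i ^ q)⁻¹ := by
    intro u v hu hv
    refine (xq_le H hu hv hv i).trans ?_
    have h1 := sum_abs_le H hv
    have h2 : 0 ≤ ∑' a, |v a| := tsum_nonneg fun _ => abs_nonneg _
    have h3 : (∑' a, |v a|) * (∑' a, |v a|) ≤
        (M * ∑' i, (N i ^ q)⁻¹) * (M * ∑' i, (N i ^ q)⁻¹) := mul_le_mul h1 h1 h2 (by positivity)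
    have h4 := mul_le_mul_of_nonneg_left h3 (mul_nonneg H.C0 hM)
    have h5 := mul_le_mul_of_nonneg_right h4 (s_pos H i).le
    calc _ ≤ _ := h5
      _ = _ := by ring
  have k1 := key hz hz
  have k2 := key hz hz'
  have k3 := key hz' hz
  have k4 := key hz' hz'
  have e : (z i - z' i) * (qd c z i - qd c z' i) = z i * qd2 c z z i - z i * qd2 c z' z' i
      - (z' i * qd2 c z z i - z' i * qd2 c z' z' i) := by
    show (z i - z' i) * (qd2 c z z i - qd2 c z' z' i) = _
    ring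
  rw [e]
  have t1 := abs_sub (z i * qd2 c z z i - z i * qd2 c z' z' i)
    (z' i * qd2 c z z i - z' i * qd2 c z' z' i)
  have t2 := abs_sub (z i * qd2 c z z i) (z i * qd2 c z' z' i)
  have t3 := abs_sub (z' i * qd2 c z z i) (z' i * qd2 c z' z' i)
  linarith

lemma dterm_summ {z z' : I → ℝ} {M : ℝ} (hz : Dec N p q M z) (hz' : Dec N p q M z') :
    Summable (fun i => (z i - z' i) * (qd c z i - qd c z' i)) := by
  refine Summable.of_norm_bounded
    (H.summ.mul_left (4 * C * M ^ 3 * (∑' i, (N i ^ q)⁻¹) ^ 2)) (fun i => ?_)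
  rw [Real.norm_eq_abs]
  exact dterm_le H hz hz' i

lemma w_sq_le {z z' : I → ℝ} {M : ℝ} (hz : Dec N p q M z) (hz' : Dec N p q M z') (i : I) :
    (z i - z' i) ^ 2 ≤ 4 * M ^ 2 * (N i ^ q)⁻¹ := by
  have hM : 0 ≤ M := M_nonneg H hz i
  have h1 := xs H hz i
  have h2 := xs H hz' i
  have h3 : ∀ {x : I → ℝ}, Dec N p q M x → |x i| ≤ M := by
    intro x hx
    refine le_trans ?_ (hx i)
    have : 1 ≤ N i ^ (p + q) := one_le_pow₀ (H.one i)
    nlinarith [abs_nonneg (x i)]
  have h4 := h3 hz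
  have h5 := h3 hz'
  have h6 : |z i - z' i| ≤ |z i| + |z' i| := abs_sub _ _
  have h7 : 0 < (N i ^ q)⁻¹ := s_pos H i
  have h8 : |z i - z' i| ≤ 2 * M := by linarith
  have h9 : |z i - z' i| ≤ 2 * (M * (N i ^ q)⁻¹) := by linarith
  calc (z i - z' i) ^ 2 = |z i - z' i| * |z i - z' i| := by rw [← sq_abs, sq]
    _ ≤ (2 * M) * (2 * (M * (N i ^ q)⁻¹)) := mul_le_mul h8 h9 (abs_nonneg _) (by positivity)
    _ = _ := by ring

/-! the linear term -/

lemma lin_term (i : I) (w : I → ℝ) (b : I) : |D i b * w b| ≤ C * N i ^ p * |w b| := by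
  rw [abs_mul]
  exact mul_le_mul_of_nonneg_right (H.dsize i b) (abs_nonneg _)

lemma lin_summ {w : I → ℝ} (hw : Dec N p q M w) (i : I) : Summable (fun b => D i b * w b) := by
  refine Summable.of_norm_bounded ((x_summ H hw).mul_left (C * N i ^ p)) (fun b => ?_)
  rw [Real.norm_eq_abs]
  exact lin_term H i w b

lemma lin_le {w : I → ℝ} (hw : Dec N p q M w) (i : I) :
    |lin D w i| ≤ C * N i ^ p * ∑' a, |w a| := by
  rw [← tsum_mul_left, lin, ← Real.norm_eq_abs]
  refine tsum_of_norm_bounded (((x_summ H hw).mul_left _).hasSum) (fun b => ?_)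
  rw [Real.norm_eq_abs]
  exact lin_term H i w b

lemma lin_sub {z z' : I → ℝ} {M M' : ℝ} (hz : Dec N p q M z) (hz' : Dec N p q M' z') (i : I) :
    lin D z i - lin D z' i = lin D (fun a => z a - z' a) i := by
  rw [lin, lin, lin, ← (lin_summ H hz i).tsum_sub (lin_summ H hz' i)]
  congr 1
  ext b
  ring

lemma wl_le {w : I → ℝ} (hw : Dec N p q M w) (i : I) :
    |w i * lin D w i| ≤ C * M ^ 2 * (∑' i, (N i ^ q)⁻¹) * (N i ^ q)⁻¹ := by
  have hM : 0 ≤ M := M_nonneg H hw i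
  have hS : 0 ≤ ∑' i, (N i ^ q)⁻¹ := tsum_nonneg fun i => (s_pos H i).le
  have h1 := sum_abs_le H hw
  have h2 : 0 ≤ ∑' a, |w a| := tsum_nonneg fun _ => abs_nonneg _
  rw [abs_mul]
  calc |w i| * |lin D w i| ≤ |w i| * (C * N i ^ p * ∑' a, |w a|) :=
        mul_le_mul_of_nonneg_left (lin_le H hw i) (abs_nonneg _)
    _ = (N i ^ p * |w i|) * (C * ∑' a, |w a|) := by ring
    _ ≤ (M * (N i ^ q)⁻¹) * (C * (M * ∑' i, (N i ^ q)⁻¹)) :=
        mul_le_mul (Nx H hw i) (mul_le_mul_of_nonneg_left h1 H.C0) (mul_nonneg H.C0 h2)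
          (mul_nonneg hM (s_pos H i).le)
    _ = _ := by ring

lemma wl_summ {w : I → ℝ} (hw : Dec N p q M w) : Summable (fun i => w i * lin D w i) := by
  refine Summable.of_norm_bounded
    (H.summ.mul_left (C * M ^ 2 * (∑' i, (N i ^ q)⁻¹))) (fun i => ?_)
  rw [Real.norm_eq_abs]
  exact wl_le H hw i

lemma dbl_summ {w : I → ℝ} (hw : Dec N p q M w) :
    Summable (fun t : I × I => D t.1 t.2 * w t.1 * w t.2) := by
  have h0 : Summable (fun i => N i ^ p * |w i|) :=
    Summable.of_nonneg_of_le (fun i => mul_nonneg (pow_nonneg (Npos H i).le _) (abs_nonneg _))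
      (Nx H hw) (H.summ.mul_left M)
  have h1 : Summable (fun t : I × I => (N t.1 ^ p * |w t.1|) * |w t.2|) :=
    h0.mul_of_nonneg (x_summ H hw)
      (fun i => mul_nonneg (pow_nonneg (Npos H i).le _) (abs_nonneg _))
      (fun t => abs_nonneg _)
  refine Summable.of_norm_bounded (h1.mul_left C) (fun t => ?_)
  rw [Real.norm_eq_abs, abs_mul, abs_mul]
  have h2 := H.dsize t.1 t.2
  have h3 : 0 ≤ |w t.1| * |w t.2| := by positivity
  calc |D t.1 t.2| * |w t.1| * |w t.2| = |D t.1 t.2| * (|w t.1| * |w t.2|) := by ring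
    _ ≤ (C * N t.1 ^ p) * (|w t.1| * |w t.2|) := mul_le_mul_of_nonneg_right h2 h3
    _ = _ := by ring

/-- the linear term is dissipative -/
lemma lin_nonneg {w : I → ℝ} (hw : Dec N p q M w) : 0 ≤ ∑' i, w i * lin D w i := by
  have h1 := dbl_summ H hw
  have h2 : ∑' i, w i * lin D w i = ∑' t : I × I, D t.1 t.2 * w t.1 * w t.2 := by
    rw [h1.tsum_prod]
    congr 1
    ext i
    rw [lin, ← tsum_mul_left]
    congr 1
    ext b
    ring
  rw [h2]
  have hp : Tendsto (fun s : Finset I => s ×ˢ s) atTop atTop := by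
    have h0 : Tendsto (fun s : Finset I => (s, s)) atTop (atTop ×ˢ atTop) :=
      tendsto_id.prodMk tendsto_id
    rw [prod_atTop_atTop_eq] at h0
    exact tendsto_finsetProd_atTop.comp h0
  have h3 : Tendsto (fun s : Finset I => ∑ t ∈ s ×ˢ s, D t.1 t.2 * w t.1 * w t.2) atTop
      (𝓝 (∑' t : I × I, D t.1 t.2 * w t.1 * w t.2)) :=
    h1.hasSum.comp hp
  refine ge_of_tendsto' h3 (fun s => ?_)
  rw [Finset.sum_product]
  exact H.coer s w

/-- all terms of the derivative -/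
lemma all_le {z z' : I → ℝ} {M : ℝ} (hz : Dec N p q M z) (hz' : Dec N p q M z') (i : I) :
    |(z i - z' i) * (-lin D (fun a => z a - z' a) i + (qd c z i - qd c z' i))|
      ≤ (C * (M + M) ^ 2 * (∑' i, (N i ^ q)⁻¹) + 4 * C * M ^ 3 * (∑' i, (N i ^ q)⁻¹) ^ 2)
        * (N i ^ q)⁻¹ := by
  have h1 := wl_le H (dec_sub H hz hz') i
  have h2 := dterm_le H hz hz' i
  have e : (z i - z' i) * (-lin D (fun a => z a - z' a) i + (qd c z i - qd c z' i))
      = (z i - z' i) * (qd c z i - qd c z' i)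
        - (z i - z' i) * lin D (fun a => z a - z' a) i := by ring
  rw [e]
  have t1 := abs_sub ((z i - z' i) * (qd c z i - qd c z' i))
    ((z i - z' i) * lin D (fun a => z a - z' a) i)
  calc _ ≤ _ := t1
    _ ≤ _ := add_le_add h2 h1
    _ = _ := by ring

lemma all_summ {z z' : I → ℝ} {M : ℝ} (hz : Dec N p q M z) (hz' : Dec N p q M z') :
    Summable (fun i => (z i - z' i) *
      (-lin D (fun a => z a - z' a) i + (qd c z i - qd c z' i))) := by
  refine Summable.of_norm_bounded (H.summ.mul_left (C * (M + M) ^ 2 * (∑' i, (N i ^ q)⁻¹) +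
    4 * C * M ^ 3 * (∑' i, (N i ^ q)⁻¹) ^ 2)) (fun i => ?_)
  rw [Real.norm_eq_abs]
  exact all_le H hz hz' i

lemma all_eq {z z' : I → ℝ} {M : ℝ} (hz : Dec N p q M z) (hz' : Dec N p q M z') :
    ∑' i, (z i - z' i) * (-lin D (fun a => z a - z' a) i + (qd c z i - qd c z' i))
      = -(∑' i, (z i - z' i) * lin D (fun a => z a - z' a) i)
        + ∑' i, (z i - z' i) * (qd c z i - qd c z' i) := by
  rw [← tsum_neg, ← ((wl_summ H (dec_sub H hz hz')).neg).tsum_add (dterm_summ H hz hz')]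
  congr 1
  ext i
  ring

end Fixed

section Time

variable {J : Type} {g o : J → ℕ} {σ : J → J} {τ : J → ℝ} {D : Ix J → Ix J → ℝ}
  {c : Ix J → Ix J → Ix J → ℝ} {S L : ℕ → ℝ} {T : ℝ}

/-- the modes of the levels `≤ P` -/
noncomputable def FP (hK : Rot o σ τ) (P : ℕ) : Finset (Ix J) :=
  (Finset.range (P + 1)).disjSum (hK.fin P).toFinset

lemma mem_FP (hK : Rot o σ τ) (P : ℕ) (i : Ix J) : i ∈ FP hK P ↔ lv o i ≤ P := by
  cases i with
  | inl n => simp [FP, lv, Finset.mem_disjSum]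
  | inr j => simp [FP, lv, Finset.mem_disjSum]

lemma FP_tendsto (hK : Rot o σ τ) : Tendsto (FP hK) atTop atTop := by
  apply tendsto_atTop_finset_of_monotone
  · intro P Q h i hi
    rw [mem_FP] at hi ⊢
    exact hi.trans h
  · intro i
    exact ⟨lv o i, (mem_FP hK _ i).2 le_rfl⟩

/-- the skew term does not contribute -/
lemma skew_zero (hK : Rot o σ τ) (P : ℕ) (w : Ix J → ℝ) :
    ∑ i ∈ FP hK P, w i * Kz S o σ τ w i = 0 := by
  rw [FP, Finset.sum_disjSum]
  have h0 : ∑ x ∈ Finset.range (P + 1), w (Sum.inl x) * Kz S o σ τ w (Sum.inl x) = 0 := by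
    apply Finset.sum_eq_zero
    intro x _
    simp [Kz]
  rw [h0, zero_add]
  have h1 : ∑ j ∈ (hK.fin P).toFinset, w (Sum.inr j) * Kz S o σ τ w (Sum.inr j)
      = - ∑ j ∈ (hK.fin P).toFinset, w (Sum.inr j) * Kz S o σ τ w (Sum.inr j) := by
    rw [← Finset.sum_neg_distrib]
    refine Finset.sum_nbij' σ σ ?_ ?_ ?_ ?_ ?_
    · intro j hj
      simpa [hK.grp] using hj
    · intro j hj
      simpa [hK.grp] using hj
    · intro j _
      exact hK.inv j
    · intro j _
      exact hK.inv j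
    · intro j _
      simp only [Kz, hK.inv, hK.grp, hK.skew]
      ring
  linarith

lemma Kz_sub (z z' : Ix J → ℝ) (i : Ix J) :
    Kz S o σ τ z i - Kz S o σ τ z' i = Kz S o σ τ (fun a => z a - z' a) i := by
  cases i with
  | inl n => simp [Kz]
  | inr j => simp only [Kz]; ring

/-- weights of the modes -/
noncomputable abbrev Nw (L : ℕ → ℝ) (g : J → ℕ) (i : Ix J) : ℝ := L (gr g i)

variable {C M : ℝ} {p q : ℕ}

lemma deriv_FP (hK : Rot o σ τ) (H : Hyp c D (Nw L g) C p q) {z z' : Ix J → ℝ → ℝ}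
    (hz : NSol S o σ τ D c g L T z) (hz' : NSol S o σ τ D c g L T z') (P : ℕ) (t : ℝ)
    (ht : t ∈ Ico 0 T) (d1 : Dec (Nw L g) p q M (fun a => z a t))
    (d2 : Dec (Nw L g) p q M (fun a => z' a t)) :
    HasDerivWithinAt (fun r => ∑ i ∈ FP hK P, (z i r - z' i r) ^ 2)
      (2 * ∑ i ∈ FP hK P, (z i t - z' i t) * (-lin D (fun a => z a t - z' a t) i +
        (qd c (fun a => z a t) i - qd c (fun a => z' a t) i))) (Ico 0 T) t := by
  have h1 : HasDerivWithinAt (fun r => ∑ i ∈ FP hK P, (z i r - z' i r) ^ 2)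
      (∑ i ∈ FP hK P, (2 : ℕ) * (z i t - z' i t) ^ (2 - 1) *
        ((Kz S o σ τ (fun a => z a t) i - lin D (fun a => z a t) i + qd c (fun a => z a t) i)
          - (Kz S o σ τ (fun a => z' a t) i - lin D (fun a => z' a t) i
            + qd c (fun a => z' a t) i))) (Ico 0 T) t := by
    refine HasDerivWithinAt.fun_sum (fun i _ => ?_)
    exact ((hz.deriv i t ht).sub (hz'.deriv i t ht)).pow 2
  have h2 := skew_zero (S := S) hK P (fun a => z a t - z' a t)
  have h3 : (∑ i ∈ FP hK P, (2 : ℕ) * (z i t - z' i t) ^ (2 - 1) *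
        ((Kz S o σ τ (fun a => z a t) i - lin D (fun a => z a t) i + qd c (fun a => z a t) i)
          - (Kz S o σ τ (fun a => z' a t) i - lin D (fun a => z' a t) i
            + qd c (fun a => z' a t) i)))
      = 2 * ∑ i ∈ FP hK P, (z i t - z' i t) * (-lin D (fun a => z a t - z' a t) i +
        (qd c (fun a => z a t) i - qd c (fun a => z' a t) i)) := by
    have h4 : (∑ i ∈ FP hK P, (2 : ℕ) * (z i t - z' i t) ^ (2 - 1) *
        ((Kz S o σ τ (fun a => z a t) i - lin D (fun a => z a t) i + qd c (fun a => z a t) i)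
          - (Kz S o σ τ (fun a => z' a t) i - lin D (fun a => z' a t) i
            + qd c (fun a => z' a t) i)))
        = 2 * ∑ i ∈ FP hK P, (z i t - z' i t) *
            Kz S o σ τ (fun a => z a t - z' a t) i +
          2 * ∑ i ∈ FP hK P, (z i t - z' i t) * (-lin D (fun a => z a t - z' a t) i +
            (qd c (fun a => z a t) i - qd c (fun a => z' a t) i)) := by
      rw [Finset.mul_sum, Finset.mul_sum, ← Finset.sum_add_distrib]
      refine Finset.sum_congr rfl (fun i _ => ?_)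
      rw [← Kz_sub, ← lin_sub H d1 d2]
      push_cast
      ring
    rw [h4, h2]
    ring
  rw [h3] at h1
  exact h1

/-- the zero solution -/
lemma zero_sol : NSol S o σ τ D c g L T (fun _ _ => 0) := by
  refine ⟨fun i t _ => ?_, fun k T' _ => ⟨0, fun t _ i => by simp⟩⟩
  have h1 : Kz S o σ τ (fun _ => (0 : ℝ)) i = 0 := by
    cases i <;> simp [Kz]
  have h2 : qd c (fun _ => (0 : ℝ)) i = 0 := by
    simp [qd]
  have h3 : lin D (fun _ => (0 : ℝ)) i = 0 := by
    simp [lin]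
  rw [h1, h2, h3, sub_zero, add_zero]
  exact hasDerivWithinAt_const _ _ _

/-- uniform decay of two solutions -/
lemma two_dec {z z' : Ix J → ℝ → ℝ} (hz : NSol S o σ τ D c g L T z)
    (hz' : NSol S o σ τ D c g L T z') (p q : ℕ) (T' : ℝ) (hT : T' < T) :
    ∃ M, ∀ t ∈ Icc 0 T', Dec (Nw L g) p q M (fun a => z a t) ∧
      Dec (Nw L g) p q M (fun a => z' a t) := by
  obtain ⟨M1, h1⟩ := hz.reg (p + q) T' hT
  obtain ⟨M2, h2⟩ := hz'.reg (p + q) T' hT
  exact ⟨max M1 M2, fun t ht => ⟨fun i => (h1 t ht i).trans (le_max_left _ _),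
    fun i => (h2 t ht i).trans (le_max_right _ _)⟩⟩

/-- the derivative of the square of the distance of two solutions -/
lemma main_der (hK : Rot o σ τ) (H : Hyp c D (Nw L g) C p q) {z z' : Ix J → ℝ → ℝ}
    (hz : NSol S o σ τ D c g L T z) (hz' : NSol S o σ τ D c g L T z') {T' : ℝ} (hT : T' < T)
    (hd : ∀ t ∈ Icc 0 T', Dec (Nw L g) p q M (fun a => z a t) ∧
      Dec (Nw L g) p q M (fun a => z' a t)) {t : ℝ} (ht : t ∈ Icc 0 T') :
    HasDerivWithinAt (fun r => ∑' i, (z i r - z' i r) ^ 2)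
      (2 * ∑' i, (z i t - z' i t) * (-lin D (fun a => z a t - z' a t) i +
        (qd c (fun a => z a t) i - qd c (fun a => z' a t) i))) (Icc 0 T') t := by
  have hsub : Icc 0 T' ⊆ Ico 0 T := fun t ht => ⟨ht.1, lt_of_le_of_lt ht.2 hT⟩
  obtain ⟨K1, hK1⟩ : ∃ K1, K1 = C * (M + M) ^ 2 * (∑' i : Ix J, (Nw L g i ^ q)⁻¹) +
    4 * C * M ^ 3 * (∑' i : Ix J, (Nw L g i ^ q)⁻¹) ^ 2 := ⟨_, rfl⟩
  have hb : Summable (fun i : Ix J => K1 * (Nw L g i ^ q)⁻¹) := H.summ.mul_left K1
  have heps : Tendsto (fun P => 2 * (∑' i : Ix J, K1 * (Nw L g i ^ q)⁻¹ -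
      ∑ i ∈ FP hK P, K1 * (Nw L g i ^ q)⁻¹)) atTop (𝓝 0) := by
    have h1 := ((hb.hasSum.comp (FP_tendsto hK)).const_sub
      (∑' i : Ix J, K1 * (Nw L g i ^ q)⁻¹)).const_mul 2
    rw [sub_self, mul_zero] at h1
    exact h1
  refine der_lim (convex_Icc 0 T') heps
    (F := fun P r => ∑ i ∈ FP hK P, (z i r - z' i r) ^ 2)
    (F' := fun P t => 2 * ∑ i ∈ FP hK P, (z i t - z' i t) *
      (-lin D (fun a => z a t - z' a t) i +
        (qd c (fun a => z a t) i - qd c (fun a => z' a t) i)))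
    (g := fun t => 2 * ∑' i, (z i t - z' i t) * (-lin D (fun a => z a t - z' a t) i +
        (qd c (fun a => z a t) i - qd c (fun a => z' a t) i)))
    (fun P t ht => ?_) (fun P t ht => ?_) (fun t ht => ?_) ht
  · exact (deriv_FP hK H hz hz' P t (hsub ht) (hd t ht).1 (hd t ht).2).mono hsub
  · obtain ⟨d1, d2⟩ := hd t ht
    rw [← mul_sub, abs_mul, abs_of_pos (by norm_num : (0 : ℝ) < 2)]
    refine mul_le_mul_of_nonneg_left ?_ (by norm_num)
    exact part_le (all_summ H d1 d2) hb (fun i => by rw [hK1]; exact all_le H d1 d2 i) (FP hK P)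
  · obtain ⟨d1, d2⟩ := hd t ht
    exact (sq_summ H (dec_sub H d1 d2)).hasSum.comp (FP_tendsto hK)

end Time

section Params

variable {J : Type} {g : J → ℕ} {lm L C M ℓ ρ E : ℕ → ℝ} {B : ℕ → ℕ → ℝ}
  {D : Ix J → Ix J → ℝ} {c : Ix J → Ix J → Ix J → ℝ}

lemma L_one (hS : Pool.Agent.Y6.N.Seq lm L C ℓ M B) : ∀ n, 1 ≤ L n
  | 0 => hS.L0
  | n + 1 => by
    have h1 := L_one hS n
    have h2 := hS.lm_big (n + 1)
    rw [← hS.lm_succ n]
    nlinarith

lemma L_big (hS : Pool.Agent.Y6.N.Seq lm L C ℓ M B) : ∀ n, (10 : ℝ) ^ n ≤ L n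
  | 0 => by simpa using hS.L0
  | n + 1 => by
    have h1 := L_big hS n
    have h2 := hS.lm_big (n + 1)
    have h3 := L_one hS n
    rw [← hS.lm_succ n, pow_succ]
    have h4 : (10 : ℝ) ≤ lm (n + 1) := by linarith
    nlinarith

lemma L_mono (hS : Pool.Agent.Y6.N.Seq lm L C ℓ M B) (n : ℕ) : L n ≤ L (n + 1) := by
  have h1 := L_one hS n
  have h2 := hS.lm_big (n + 1)
  rw [← hS.lm_succ n]
  nlinarith

lemma M_le4 (hS : Pool.Agent.Y6.N.Seq lm L C ℓ M B) : ∀ n, M n ≤ L n ^ 4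
  | 0 => (hS.M_mono 0).trans (hS.M_le 0)
  | n + 1 => (hS.M_le n).trans (by
    have h1 := L_one hS n
    exact pow_le_pow_left₀ (by linarith) (L_mono hS n) 4)

lemma summ_weights (hK : Kern g L C B M c) (hS : Pool.Agent.Y6.N.Seq lm L C ℓ M B) :
    Summable (fun i : Ix J => (Nw L g i ^ 5)⁻¹) := by
  have hL : ∀ n, (0 : ℝ) < L n := fun n => lt_of_lt_of_le one_pos (L_one hS n)
  have hg : Summable (fun n : ℕ => (L n)⁻¹) := by
    refine Summable.of_nonneg_of_le (fun n => (inv_pos.2 (hL n)).le) (fun n => ?_)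
      (summable_geometric_of_lt_one (by norm_num : (0 : ℝ) ≤ 1 / 10) (by norm_num))
    rw [one_div, inv_pow]
    exact inv_anti₀ (by positivity) (L_big hS n)
  apply Summable.sum
  · refine Summable.of_nonneg_of_le (fun n => (inv_pos.2 (pow_pos (hL _) _)).le) (fun n => ?_) hg
    have h1 : L n ≤ L n ^ 5 := by
      have := L_one hS n
      exact le_self_pow₀ this (by norm_num)
    exact inv_anti₀ (hL n) h1
  · have hfin : ∀ n, Finite {j // g j = n} := fun n => (hK.fin n).to_subtype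
    rw [← (Equiv.sigmaFiberEquiv g).summable_iff]
    have hnn : ∀ x : (y : ℕ) × { j // g j = y }, 0 ≤ (((fun i : Ix J => (Nw L g i ^ 5)⁻¹) ∘
        Sum.inr) ∘ (Equiv.sigmaFiberEquiv g)) x := fun x => (inv_pos.2 (pow_pos (hL _) _)).le
    rw [summable_sigma_of_nonneg hnn]
    refine ⟨fun n => ?_, ?_⟩
    · haveI := hfin n
      exact Summable.of_finite
    · refine Summable.of_nonneg_of_le (fun n => tsum_nonneg fun x =>
        (inv_pos.2 (pow_pos (hL _) _)).le) (fun n => ?_) hg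
      haveI := Fintype.ofFinite {j // g j = n}
      have h1 : ∀ x : {j // g j = n}, (((fun i : Ix J => (Nw L g i ^ 5)⁻¹) ∘ Sum.inr) ∘
          (Equiv.sigmaFiberEquiv g)) ⟨n, x⟩ = (L n ^ 5)⁻¹ := by
        rintro ⟨j, rfl⟩
        rfl
      have h2 : ∑' x : {j // g j = n}, (((fun i : Ix J => (Nw L g i ^ 5)⁻¹) ∘ Sum.inr) ∘
          (Equiv.sigmaFiberEquiv g)) ⟨n, x⟩ = (Fintype.card {j // g j = n} : ℝ) * (L n ^ 5)⁻¹ := by
        rw [tsum_fintype, Finset.sum_congr rfl (fun x _ => h1 x), Finset.sum_const,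
          nsmul_eq_mul, Finset.card_univ]
      have h3 : (Fintype.card {j // g j = n} : ℝ) ≤ L n ^ 4 := by
        have h4 := hK.card n
        have h5 : ({j | g j = n}.ncard : ℝ) = (Fintype.card {j // g j = n} : ℝ) := by
          rw [← Nat.card_eq_fintype_card, ← Nat.card_coe_set_eq]
          rfl
        rw [← h5]
        exact h4.trans (M_le4 hS n)
      refine (le_of_eq h2).trans ?_
      have h6 : (0 : ℝ) < L n ^ 5 := pow_pos (hL n) 5
      rw [← div_eq_mul_inv, div_le_iff₀ h6]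
      have h7 : (L n)⁻¹ * L n ^ 5 = L n ^ 4 := by
        have := (hL n).ne'
        field_simp
      rw [h7]
      exact h3

lemma hyp (hK : Kern g L C B M c) (hS : Pool.Agent.Y6.N.Seq lm L C ℓ M B) (hD : Dis g ℓ ρ E D)
    (hE : ∃ (X : ℝ) (p : ℕ), ∀ n, E n ≤ X * L n ^ p) :
    ∃ (C : ℝ) (p q : ℕ), Hyp c D (Nw L g) C p q := by
  obtain ⟨X, p1, hX⟩ := hE
  have h1 : ∀ n, 1 ≤ L n := L_one hS
  have hM : ∀ n, M n ≤ max 1 |X| * L n ^ max 4 p1 := by
    intro n
    have h2 := M_le4 hS n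
    have h3 : L n ^ 4 ≤ L n ^ max 4 p1 := pow_le_pow_right₀ (h1 n) (le_max_left _ _)
    have h4 : (1 : ℝ) ≤ max 1 |X| := le_max_left _ _
    have h5 : 0 ≤ L n ^ max 4 p1 := by have := h1 n; positivity
    nlinarith
  have hEn : ∀ n, E n ≤ max 1 |X| * L n ^ max 4 p1 := by
    intro n
    have h3 : L n ^ p1 ≤ L n ^ max 4 p1 := pow_le_pow_right₀ (h1 n) (le_max_right _ _)
    have h4 : X ≤ max 1 |X| := (le_abs_self X).trans (le_max_right _ _)
    have h5 : 0 ≤ L n ^ p1 := by have := h1 n; positivity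
    have h6 : (0 : ℝ) ≤ max 1 |X| := zero_le_one.trans (le_max_left _ _)
    calc E n ≤ X * L n ^ p1 := hX n
      _ ≤ max 1 |X| * L n ^ p1 := mul_le_mul_of_nonneg_right h4 h5
      _ ≤ _ := mul_le_mul_of_nonneg_left h3 h6
  refine ⟨max 1 |X|, max 4 p1, 5, ⟨zero_le_one.trans (le_max_left _ _), fun i => h1 _,
    fun i a b => (hK.size i a b).trans (hM _), fun i a => (hD.size i a).trans (hEn _),
    summ_weights hK hS, hK.anti, fun i z hz => ?_, fun s z => ?_⟩⟩
  · exact (hK.quad i z hz).trans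
      (mul_le_mul_of_nonneg_right (hM _) (tsum_nonneg fun _ => sq_nonneg _))
  · refine le_trans (Finset.sum_nonneg fun a _ => ?_) (hD.coer s z)
    exact mul_nonneg (hD.ρ0 _) (sq_nonneg _)

end Params

/-- **NSK-UNI** -/
theorem t_UNI2 : S_UNI2 := by
  intro J g o σ τ lm L C M ℓ ρ E B D c S T hK hS hR hD hE
  obtain ⟨C', p, q, H⟩ := hyp hK hS hD hE
  constructor
  · intro z hz t ht
    obtain ⟨T', hT1, hT2⟩ := exists_between ht.2
    obtain ⟨M', hM⟩ := two_dec hz (zero_sol (S := S) (σ := σ) (τ := τ) (o := o) (D := D) (c := c)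
      (g := g) (L := L)) p q T' hT2
    have htm : t ∈ Icc 0 T' := ⟨ht.1, hT1.le⟩
    obtain ⟨d1, d2⟩ := hM t htm
    refine ⟨sq_summ H d1, wl_summ H d1, ?_⟩
    have h1 := main_der hR H hz (zero_sol (S := S) (σ := σ) (τ := τ) (o := o) (D := D) (c := c)
      (g := g) (L := L)) hT2 hM htm
    have h3 : ∀ i, qd c (fun _ : Ix J => (0 : ℝ)) i = 0 := by
      intro i
      simp [qd]
    have h4 := all_eq H d1 d2
    rw [h4] at h1
    simp only [sub_zero, h3] at h1
    have h5 : ∑' i, z i t * qd c (fun a => z a t) i = 0 := anti_zero H d1 d1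
    rw [h5, add_zero] at h1
    have h6 : 2 * -(∑' i, z i t * lin D (fun a => z a t) i) =
        -(2 * ∑' a, z a t * lin D (fun b => z b t) a) := by ring
    rw [h6] at h1
    refine h1.mono_of_mem_nhdsWithin ?_
    have h7 : Iio T' ∈ 𝓝[Ico 0 T] t := mem_nhdsWithin_of_mem_nhds (Iio_mem_nhds hT1)
    filter_upwards [h7, self_mem_nhdsWithin] with r hr hr2
    exact ⟨hr2.1, le_of_lt hr⟩
  · intro z z' hz hz' h0 i t ht
    obtain ⟨M', hM⟩ := two_dec hz hz' p q t ht.2
    have hd := fun r (hr : r ∈ Icc 0 t) => main_der hR H hz hz' ht.2 hM hr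
    obtain ⟨W, hW⟩ : ∃ W : ℝ → ℝ, W = fun r => ∑' i, (z i r - z' i r) ^ 2 := ⟨_, rfl⟩
    obtain ⟨G, hG⟩ : ∃ G : ℝ → ℝ, G = fun t => 2 * ∑' i, (z i t - z' i t) *
      (-lin D (fun a => z a t - z' a t) i +
        (qd c (fun a => z a t) i - qd c (fun a => z' a t) i)) := ⟨_, rfl⟩
    obtain ⟨K, hKK⟩ : ∃ K, K = 2 * (C' * M' * ∑' i : Ix J, (Nw L g i ^ q)⁻¹) := ⟨_, rfl⟩
    have hGK : ∀ r ∈ Icc 0 t, G r ≤ K * W r := by
      intro r hr
      obtain ⟨d1, d2⟩ := hM r hr
      have e1 := all_eq H d1 d2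
      have e2 := lin_nonneg H (dec_sub H d1 d2)
      have e3 := (abs_le.1 (diff_le H d1 d2)).2
      rw [hG, hW, hKK]
      beta_reduce
      rw [e1]
      nlinarith
    have hdW : ∀ r ∈ Icc 0 t, HasDerivWithinAt W (G r) (Icc 0 t) r := by
      intro r hr
      rw [hG, hW]
      exact hd r hr
    have hdV : ∀ r ∈ Icc 0 t, HasDerivWithinAt (fun s => W s * Real.exp (-(K * s)))
        ((G r - K * W r) * Real.exp (-(K * r))) (Icc 0 t) r := by
      intro r hr
      have k1 : HasDerivWithinAt (fun s : ℝ => Real.exp (-(K * s)))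
          (Real.exp (-(K * r)) * (-(K * 1))) (Icc 0 t) r :=
        (((hasDerivAt_id r).const_mul K).neg.exp).hasDerivWithinAt
      have k2 := (hdW r hr).mul k1
      refine k2.congr_deriv ?_
      ring
    have hanti : AntitoneOn (fun s => W s * Real.exp (-(K * s))) (Icc 0 t) := by
      refine antitoneOn_of_deriv_nonpos (convex_Icc 0 t)
        (fun r hr => (hdV r hr).continuousWithinAt) (fun r hr => ?_) (fun r hr => ?_)
      · rw [interior_Icc] at hr
        exact ((hdV r ⟨hr.1.le, hr.2.le⟩).differentiableWithinAt).mono interior_subset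
      · rw [interior_Icc] at hr
        have hr' : r ∈ Icc 0 t := ⟨hr.1.le, hr.2.le⟩
        have k3 := (hdV r hr').hasDerivAt (Icc_mem_nhds hr.1 hr.2)
        rw [k3.deriv]
        exact mul_nonpos_of_nonpos_of_nonneg (by linarith [hGK r hr']) (Real.exp_pos _).le
    have hW0 : W 0 = 0 := by
      rw [hW]
      beta_reduce
      rw [show (fun i => (z i 0 - z' i 0) ^ 2) = fun _ => (0 : ℝ) from ?_, tsum_zero]
      ext i
      rw [h0 i]
      ring
    have h8 := hanti ⟨le_rfl, ht.1⟩ ⟨ht.1, le_rfl⟩ ht.1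
    simp only [hW0, zero_mul] at h8
    have h9 : W t ≤ 0 := by
      by_contra hcon
      push Not at hcon
      have := mul_pos hcon (Real.exp_pos (-(K * t)))
      linarith
    obtain ⟨d1, d2⟩ := hM t ⟨ht.1, le_rfl⟩
    have hsq : Summable (fun i => (z i t - z' i t) ^ 2) := sq_summ H (dec_sub H d1 d2)
    have h10 : ∑' i, (z i t - z' i t) ^ 2 = 0 := by
      apply le_antisymm
      · rw [hW] at h9
        exact h9
      · exact tsum_nonneg fun _ => sq_nonneg _
    have h2 := (hasSum_zero_iff_of_nonneg (fun i => sq_nonneg (z i t - z' i t))).1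
      (h10 ▸ hsq.hasSum)
    have h3 := congrFun h2 i
    have h4 : (z i t - z' i t) ^ 2 = 0 := h3
    have h5 : z i t - z' i t = 0 := by
      simpa using h4
    linarith

end Pool.Agent.Y939.NSK
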